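import Pool.Agent.Lib_helper51.TM32.NDefs

/-!
TM32, phase 2, block N1a (helper53): the elements of given norm in `ℤ[√-2]`; coprime factorisation.
-/

set_option autoImplicit false

namespace Pool.Agent.TM32

open Zsqrtd

theorem mem_SN {n : ℕ} {x : Zs} : x ∈ SN n ↔ x.norm = n := by
  unfold SN
  rw [Finset.mem_filter]
  constructor
  · exact fun h => h.2
  · intro h
    refine ⟨?_, h⟩
    rw [Finset.mem_map]
    have h1 : x.re ^ 2 + 2 * x.im ^ 2 = n := by rw [← nv, h]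
    have h2 : x.re ^ 2 ≤ n := by nlinarith [sq_nonneg x.im]
    have h3 : x.im ^ 2 ≤ n := by nlinarith [sq_nonneg x.re, sq_nonneg x.im]
    have key : ∀ a : ℤ, a ^ 2 ≤ n → -(n : ℤ) ≤ a ∧ a ≤ n := by
      intro a ha
      have h4 : |a| ≤ a ^ 2 := by
        rcases eq_or_ne a 0 with h0 | h0
        · simp [h0]
        · have h5 : 1 ≤ |a| := Int.one_le_abs h0
          have h6 : a ^ 2 = |a| * |a| := by rw [← sq_abs]; ring
          rw [h6]; nlinarith
      exact abs_le.1 (h4.trans ha)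
    refine ⟨(x.re, x.im), ?_, ?_⟩
    · rw [Finset.mem_product, Finset.mem_Icc, Finset.mem_Icc]
      exact ⟨key _ h2, key _ h3⟩
    · rfl

private theorem n1a_norm_one {u : Zs} (h : u.norm = 1) : u = 1 ∨ u = -1 := by
  rw [nv] at h
  have h1 : u.im = 0 := by
    by_contra h0
    have h2 : 1 ≤ u.im ^ 2 := by
      have : 0 < u.im ^ 2 := by positivity
      linarith
    nlinarith [sq_nonneg u.re]
  rw [h1] at h
  have h3 : (u.re - 1) * (u.re + 1) = 0 := by linear_combination h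
  rcases mul_eq_zero.1 h3 with h4 | h4
  · left
    ext
    · simp; linarith
    · simp [h1]
  · right
    ext
    · simp; linarith
    · simp [h1]

private theorem n1a_coprime {m n : ℕ} (h : Nat.Coprime m n) {x y : Zs} (hx : x.norm = m)
    (hy : y.norm = n) : IsCoprime x y := by
  have h1 : IsCoprime (m : ℤ) (n : ℤ) := Nat.isCoprime_iff_coprime.2 h
  obtain ⟨a, b, hab⟩ := h1
  refine ⟨(a : Zs) * star x, (b : Zs) * star y, ?_⟩
  have e1 : ((x.norm : ℤ) : Zs) = x * star x := Zsqrtd.norm_eq_mul_conj x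
  have e2 : ((y.norm : ℤ) : Zs) = y * star y := Zsqrtd.norm_eq_mul_conj y
  have e3 : ((a * (m : ℤ) + b * (n : ℤ) : ℤ) : Zs) = 1 := by rw [hab]; simp
  rw [← hx, ← hy] at e3
  push_cast at e3
  rw [e1, e2] at e3
  linear_combination e3

private theorem n1a_exists {m n : ℕ} (hm : 0 < m) (h : Nat.Coprime m n) {z : Zs}
    (hz : z.norm = ((m * n : ℕ) : ℤ)) : ∃ x y : Zs, x.norm = m ∧ y.norm = n ∧ x * y = z := by
  set x : Zs := EuclideanDomain.gcd z (m : Zs) with hxdef
  have hxz : x ∣ z := EuclideanDomain.gcd_dvd_left z (m : Zs)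
  have hxm : x ∣ (m : Zs) := EuclideanDomain.gcd_dvd_right z (m : Zs)
  obtain ⟨a, b, hab⟩ : ∃ a b : Zs, x = z * a + (m : Zs) * b :=
    ⟨_, _, EuclideanDomain.gcd_eq_gcd_ab z (m : Zs)⟩
  have hzz : z * star z = ((m * n : ℕ) : Zs) := by
    rw [← Zsqrtd.norm_eq_mul_conj z, hz]; simp
  have hmx : (m : ℤ) ∣ x.norm := by
    rw [← Zsqrtd.intCast_dvd_intCast (d := -2)]
    rw [Zsqrtd.norm_eq_mul_conj]
    refine ⟨(n : Zs) * (a * star a) + z * a * star b + star z * star a * b + (m : Zs) * (b * star b), ?_⟩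
    have e1 : star x = star z * star a + (m : Zs) * star b := by
      rw [hab]; simp [mul_comm]
    rw [e1]
    nth_rewrite 1 [hab]
    push_cast at hzz ⊢
    linear_combination (a * star a) * hzz
  have hxm2 : x.norm ∣ (m : ℤ) := by
    have h1 : x.norm ∣ ((m * n : ℕ) : ℤ) := by
      obtain ⟨c, hc⟩ := hxz
      rw [← hz, hc, Zsqrtd.norm_mul]
      exact dvd_mul_right _ _
    have h2 : x.norm ∣ (m : ℤ) * (m : ℤ) := by
      obtain ⟨c, hc⟩ := hxm
      have e : ((m : Zs)).norm = (m : ℤ) * (m : ℤ) := by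
        rw [nv]; simp; ring
      rw [← e, hc, Zsqrtd.norm_mul]
      exact dvd_mul_right _ _
    obtain ⟨c, d, hcd⟩ := (Nat.isCoprime_iff_coprime.2 h : IsCoprime (m : ℤ) (n : ℤ))
    have h3 : (m : ℤ) = (m : ℤ) * (m : ℤ) * c + ((m * n : ℕ) : ℤ) * d := by
      push_cast
      linear_combination (-(m : ℤ)) * hcd
    rw [h3]
    exact dvd_add (h2.mul_right _) (h1.mul_right _)
  have hxn : x.norm = m := Int.dvd_antisymm (nn x) (by positivity) hxm2 hmx
  obtain ⟨y, hy⟩ := hxz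
  refine ⟨x, y, hxn, ?_, hy.symm⟩
  have h4 : x.norm * y.norm = ((m * n : ℕ) : ℤ) := by rw [← Zsqrtd.norm_mul, ← hy, hz]
  rw [hxn] at h4
  push_cast at h4
  have hm' : (m : ℤ) ≠ 0 := by positivity
  exact mul_left_cancel₀ hm' h4

private theorem n1a_unique {m n : ℕ} (hm : 0 < m) (h : Nat.Coprime m n) {x y x' y' : Zs}
    (hx : x.norm = m) (hy : y.norm = n) (hx' : x'.norm = m) (hy' : y'.norm = n)
    (hxy : x' * y' = x * y) : (x' = x ∧ y' = y) ∨ (x' = -x ∧ y' = -y) := by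
  have hm' : (m : ℤ) ≠ 0 := by positivity
  have hx0 : x ≠ 0 := by
    rintro rfl
    simp at hx
    omega
  have h1 : x ∣ x' := by
    have h2 : x ∣ x' * y' := ⟨y, hxy⟩
    exact (n1a_coprime h hx hy').dvd_of_dvd_mul_right h2
  obtain ⟨u, hu⟩ := h1
  have hu1 : u.norm = 1 := by
    have h3 : x.norm * u.norm = m := by rw [← Zsqrtd.norm_mul, ← hu, hx']
    rw [hx] at h3
    exact mul_left_cancel₀ hm' (by rw [h3, mul_one])
  rcases n1a_norm_one hu1 with h4 | h4
  · left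
    rw [h4, mul_one] at hu
    refine ⟨hu, ?_⟩
    rw [hu] at hxy
    exact mul_left_cancel₀ hx0 hxy
  · right
    rw [h4] at hu
    have hu' : x' = -x := by rw [hu]; ring
    refine ⟨hu', ?_⟩
    rw [hu'] at hxy
    refine mul_left_cancel₀ hx0 ?_
    linear_combination -hxy

theorem SN_mul {m n : ℕ} (hm : 0 < m) (hn : 0 < n) (h : Nat.Coprime m n) (f : Zs → ℂ) :
    2 * ∑ z ∈ SN (m * n), f z = ∑ x ∈ SN m, ∑ y ∈ SN n, f (x * y) := by
  classical
  rw [← Finset.sum_product']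
  have hmap : ∀ v ∈ SN m ×ˢ SN n, v.1 * v.2 ∈ SN (m * n) := by
    intro v hv
    rw [Finset.mem_product, mem_SN, mem_SN] at hv
    rw [mem_SN, Zsqrtd.norm_mul, hv.1, hv.2]
    push_cast
    rfl
  rw [← Finset.sum_fiberwise_of_maps_to hmap, Finset.mul_sum]
  refine Finset.sum_congr rfl fun z hz => ?_
  rw [mem_SN] at hz
  obtain ⟨x, y, hx, hy, hxy⟩ := n1a_exists hm h hz
  have hm' : (m : ℤ) ≠ 0 := by positivity
  have hx0 : x ≠ 0 := by
    rintro rfl
    simp at hx
    omega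
  have hne : (x, y) ≠ (-x, -y) := by
    intro h0
    have h1 : x = -x := (Prod.ext_iff.1 h0).1
    apply hx0
    have h2 := congrArg Zsqrtd.re h1
    have h3 := congrArg Zsqrtd.im h1
    simp only [Zsqrtd.re_neg, Zsqrtd.im_neg] at h2 h3
    ext
    · simp; omega
    · simp; omega
  have hfib : (SN m ×ˢ SN n).filter (fun v => v.1 * v.2 = z) = {(x, y), (-x, -y)} := by
    ext ⟨a, b⟩
    rw [Finset.mem_filter, Finset.mem_product, mem_SN, mem_SN, Finset.mem_insert,
      Finset.mem_singleton, Prod.mk.injEq, Prod.mk.injEq]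
    constructor
    · rintro ⟨⟨ha, hb⟩, hab⟩
      exact n1a_unique hm h hx hy ha hb (hab.trans hxy.symm)
    · rintro (⟨rfl, rfl⟩ | ⟨rfl, rfl⟩)
      · exact ⟨⟨hx, hy⟩, hxy⟩
      · refine ⟨⟨by rw [Zsqrtd.norm_neg]; exact hx, by rw [Zsqrtd.norm_neg]; exact hy⟩, ?_⟩
        rw [← hxy]; ring
  rw [hfib, Finset.sum_pair hne]
  have e : (-x) * (-y) = z := by rw [← hxy]; ring
  simp only [e, hxy]
  ring

end Pool.Agent.TM32
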